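import Pool.Agent.MP_18c441_lc.Lam.Defs

section

namespace Pool.Agent.MP_18c441_lc.Lam
open Relation

theorem ren_ren (s : Tm) : ∀ ξ ζ : ℕ → ℕ, ren ζ (ren ξ s) = ren (fun n => ζ (ξ n)) s := by
  induction s with
  | var n => intros; rfl
  | T => intros; rfl
  | F => intros; rfl
  | C => intros; rfl
  | app s t hs ht => intro ξ ζ; simp only [ren, hs, ht]
  | lam s hs =>
    intro ξ ζ; simp only [ren, hs]; congr 2; funext n; cases n <;> rfl

theorem sub_ren (s : Tm) : ∀ (ξ : ℕ → ℕ) (σ : ℕ → Tm),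
    sub σ (ren ξ s) = sub (fun n => σ (ξ n)) s := by
  induction s with
  | var n => intros; rfl
  | T => intros; rfl
  | F => intros; rfl
  | C => intros; rfl
  | app s t hs ht => intro ξ ζ; simp only [ren, sub, hs, ht]
  | lam s hs =>
    intro ξ ζ; simp only [ren, sub, hs]; congr 2; funext n; cases n <;> rfl

theorem ren_sub (s : Tm) : ∀ (σ : ℕ → Tm) (ξ : ℕ → ℕ),
    ren ξ (sub σ s) = sub (fun n => ren ξ (σ n)) s := by
  induction s with
  | var n => intros; rfl
  | T => intros; rfl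
  | F => intros; rfl
  | C => intros; rfl
  | app s t hs ht => intro ξ ζ; simp only [ren, sub, hs, ht]
  | lam s hs =>
    intro ξ ζ; simp only [ren, sub, hs]; congr 2; funext n
    cases n with
    | zero => rfl
    | succ n => simp only [cons, ren_ren]

theorem sub_sub (s : Tm) : ∀ (σ τ : ℕ → Tm),
    sub τ (sub σ s) = sub (fun n => sub τ (σ n)) s := by
  induction s with
  | var n => intros; rfl
  | T => intros; rfl
  | F => intros; rfl
  | C => intros; rfl
  | app s t hs ht => intro ξ ζ; simp only [sub, hs, ht]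
  | lam s hs =>
    intro ξ ζ; simp only [sub, hs]; congr 2; funext n
    cases n with
    | zero => rfl
    | succ n => simp only [cons, sub_ren, ren_sub]

theorem sub_fix (s : Tm) : ∃ N, ∀ κ : ℕ → Tm, (∀ m < N, κ m = .var m) → sub κ s = s := by
  induction s with
  | var n => exact ⟨n + 1, fun κ h => h n (by omega)⟩
  | T => exact ⟨0, fun _ _ => rfl⟩
  | F => exact ⟨0, fun _ _ => rfl⟩
  | C => exact ⟨0, fun _ _ => rfl⟩
  | app s t hs ht =>
    obtain ⟨N, hN⟩ := hs; obtain ⟨M, hM⟩ := ht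
    refine ⟨N + M, fun κ h => ?_⟩
    simp only [sub]
    rw [hN κ fun m hm => h m (by omega), hM κ fun m hm => h m (by omega)]
  | lam s hs =>
    obtain ⟨N, hN⟩ := hs
    refine ⟨N, fun κ h => ?_⟩
    simp only [sub]
    rw [hN]
    intro m hm
    cases m with
    | zero => rfl
    | succ m => simp only [cons]; rw [h m (by omega)]; rfl

theorem sub_var (s : Tm) : sub .var s = s := by
  obtain ⟨N, h⟩ := sub_fix s
  exact h _ fun _ _ => rfl

/-- The lifted substitution. -/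
abbrev up (σ : ℕ → Tm) : ℕ → Tm := cons (.var 0) fun n => ren (· + 1) (σ n)

theorem sub_up (σ : ℕ → Tm) (v s : Tm) :
    sub (cons v .var) (sub (up σ) s) = sub (cons v σ) s := by
  rw [sub_sub]; congr 1; funext n
  cases n with
  | zero => rfl
  | succ n => simp only [cons, sub_ren]; exact sub_var _

theorem Step.mono {E E' : Tm → Tm → Prop} (h : ∀ x y, E x y → E' x y) {s t : Tm}
    (hs : Step E s t) : Step E' s t := by
  induction hs with
  | beta s t => exact .beta s t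
  | cT x y => exact .cT x y
  | cF x y => exact .cF x y
  | cond z x y hx => exact .cond z x y (h _ _ hx)
  | appL s s' t _ ih => exact .appL _ _ _ ih
  | appR s t t' _ ih => exact .appR _ _ _ ih
  | lam s s' _ ih => exact .lam _ _ ih

theorem Step.subst {E : Tm → Tm → Prop} (h : ∀ σ x y, E x y → E (sub σ x) (sub σ y)) {s t : Tm}
    (hs : Step E s t) : ∀ σ, Step E (sub σ s) (sub σ t) := by
  induction hs with
  | beta s t =>
    intro σ
    have : sub σ (sub (cons t .var) s) = sub (cons (sub σ t) .var) (sub (up σ) s) := by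
      rw [sub_up, sub_sub]; congr 1; funext n; cases n <;> rfl
    rw [this]; exact .beta _ _
  | cT x y => intro σ; exact .cT _ _
  | cF x y => intro σ; exact .cF _ _
  | cond z x y hx => intro σ; exact .cond _ _ _ (h _ _ _ hx)
  | appL s s' t _ ih => intro σ; exact .appL _ _ _ (ih σ)
  | appR s t t' _ ih => intro σ; exact .appR _ _ _ (ih σ)
  | lam s s' _ ih => intro σ; exact .lam _ _ (ih _)

theorem eqv_map {r r' : Tm → Tm → Prop} (f : Tm → Tm) (h : ∀ x y, r x y → r' (f x) (f y))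
    {x y : Tm} (hx : EqvGen r x y) : EqvGen r' (f x) (f y) := by
  induction hx with
  | rel x y hxy => exact .rel _ _ (h _ _ hxy)
  | refl x => exact .refl _
  | symm x y _ ih => exact .symm _ _ ih
  | trans x y z _ _ i1 i2 => exact .trans _ _ _ i1 i2

theorem level_subst : ∀ (k : ℕ) (σ : ℕ → Tm) (s t : Tm),
    level k s t → level k (sub σ s) (sub σ t)
  | 0, _, _, _, h => h.elim
  | k + 1, σ, _, _, h =>
    Step.subst (fun τ _ _ hx => eqv_map (sub τ) (level_subst k τ) hx) h σ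

theorem level_succ : ∀ (k : ℕ) (s t : Tm), level k s t → level (k + 1) s t
  | 0, _, _, h => h.elim
  | k + 1, _, _, h => Step.mono (fun _ _ hx => eqv_map id (level_succ k) hx) h

theorem level_le {k l : ℕ} (h : k ≤ l) (s t : Tm) (hs : level k s t) : level l s t := by
  induction h with
  | refl => exact hs
  | step _ ih => exact level_succ _ _ _ ih

/-- Many steps. -/
abbrev Rs : Tm → Tm → Prop := ReflTransGen Red
/-- Conversion. -/
abbrev Cv : Tm → Tm → Prop := EqvGen Red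
/-- Joinability. -/
def J (t u : Tm) : Prop := ∃ w, Rs t w ∧ Rs u w

theorem cv_level {x y : Tm} (h : Cv x y) : ∃ k, EqvGen (level k) x y := by
  induction h with
  | rel x y h => obtain ⟨k, h⟩ := h; exact ⟨k, .rel _ _ h⟩
  | refl x => exact ⟨0, .refl _⟩
  | symm x y _ ih => obtain ⟨k, h⟩ := ih; exact ⟨k, .symm _ _ h⟩
  | trans x y z _ _ i1 i2 =>
    obtain ⟨k, h⟩ := i1; obtain ⟨l, g⟩ := i2
    exact ⟨k + l, .trans _ _ _ (eqv_map id (level_le (by omega)) h)
      (eqv_map id (level_le (by omega)) g)⟩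

theorem red_step {s t : Tm} (h : Red s t) : Step Cv s t := by
  obtain ⟨k, h⟩ := h
  cases k with
  | zero => exact h.elim
  | succ k => exact Step.mono (fun _ _ hx => eqv_map id (fun _ _ g => ⟨k, g⟩) hx) h

theorem step_red {s t : Tm} (h : Step Cv s t) : Red s t := by
  induction h with
  | beta s t => exact ⟨1, .beta s t⟩
  | cT x y => exact ⟨1, .cT x y⟩
  | cF x y => exact ⟨1, .cF x y⟩
  | cond z x y hx => obtain ⟨k, h⟩ := cv_level hx; exact ⟨k + 1, .cond z x y h⟩
  | appL s s' t _ ih =>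
    obtain ⟨k, h⟩ := ih; exact ⟨k + 1, .appL _ _ _ (level_succ k _ _ h)⟩
  | appR s t t' _ ih =>
    obtain ⟨k, h⟩ := ih; exact ⟨k + 1, .appR _ _ _ (level_succ k _ _ h)⟩
  | lam s s' _ ih =>
    obtain ⟨k, h⟩ := ih; exact ⟨k + 1, .lam _ _ (level_succ k _ _ h)⟩

theorem red_subst (σ : ℕ → Tm) (s t : Tm) (h : Red s t) : Red (sub σ s) (sub σ t) := by
  obtain ⟨k, h⟩ := h; exact ⟨k, level_subst k σ _ _ h⟩

theorem rs_map (f : Tm → Tm) (h : ∀ x y, Red x y → Red (f x) (f y)) {x y : Tm} (hx : Rs x y) :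
    Rs (f x) (f y) := by
  induction hx with
  | refl => exact .refl
  | tail _ g ih => exact ih.tail (h _ _ g)

theorem rs_app {s s' t t' : Tm} (h : Rs s s') (g : Rs t t') : Rs (.app s t) (.app s' t') :=
  (rs_map (fun x => .app x t) (fun _ _ e => step_red (.appL _ _ _ (red_step e))) h).trans
    (rs_map (fun x => .app s' x) (fun _ _ e => step_red (.appR _ _ _ (red_step e))) g)

theorem rs_lam {s s' : Tm} (h : Rs s s') : Rs (.lam s) (.lam s') :=
  rs_map .lam (fun _ _ e => step_red (.lam _ _ (red_step e))) h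

theorem rs_cv {s t : Tm} (h : Rs s t) : Cv s t := by
  induction h with
  | refl => exact .refl _
  | tail _ g ih => exact .trans _ _ _ ih (.rel _ _ g)

theorem J.cv {s t : Tm} (h : J s t) : Cv s t := by
  obtain ⟨w, h1, h2⟩ := h
  exact .trans _ _ _ (rs_cv h1) (.symm _ _ (rs_cv h2))

theorem not_rs_TF : ¬ Rs .T .F := by
  intro h
  rcases h.cases_head with h | ⟨c, h, _⟩
  · cases h
  · cases red_step h

theorem not_rs_FT : ¬ Rs .F .T := by
  intro h
  rcases h.cases_head with h | ⟨c, h, _⟩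
  · cases h
  · cases red_step h

theorem J_T {t : Tm} (h : J t .T) : Rs t .T := by
  obtain ⟨w, h1, h2⟩ := h
  rcases h2.cases_head with h | ⟨c, h, _⟩
  · exact h ▸ h1
  · cases red_step h

theorem J_F {t : Tm} (h : J t .F) : Rs t .F := by
  obtain ⟨w, h1, h2⟩ := h
  rcases h2.cases_head with h | ⟨c, h, _⟩
  · exact h ▸ h1
  · cases red_step h

/-- Joinability of two bodies can be tested on a fresh variable. -/
theorem J_fresh (p u : Tm) : ∃ z, J (sub (cons (.var z) .var) p) (sub (cons (.var z) .var) u) →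
    J (.lam p) (.lam u) := by
  obtain ⟨N, hN⟩ := sub_fix p
  obtain ⟨M, hM⟩ := sub_fix u
  refine ⟨N + M, fun ⟨w, h1, h2⟩ => ?_⟩
  let τ : ℕ → Tm := fun n => if n = N + M then .var 0 else .var (n + 1)
  have key : ∀ m, m ≤ N + M → sub τ (cons (Tm.var (N + M)) Tm.var m) = .var m := by
    intro m hm
    cases m with
    | zero => simp [cons, sub, τ]
    | succ m =>
      have : m ≠ N + M := by omega
      simp [cons, sub, τ, this]
  have g1 := rs_map (sub τ) (red_subst τ) h1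
  have g2 := rs_map (sub τ) (red_subst τ) h2
  rw [sub_sub, hN _ fun m hm => key m (by omega)] at g1
  rw [sub_sub, hM _ fun m hm => key m (by omega)] at g2
  exact ⟨_, rs_lam g1, rs_lam g2⟩

end Pool.Agent.MP_18c441_lc.Lam

end

section

namespace Pool.Agent.MP_18c441_lc.Lam
open Relation

/-- Atoms of the graph model: join tokens and arrows. -/
inductive At : Type 1
  | tok (u : Tm)
  | arr (ι : Type) (f : ι → At) (b : At)

/-- Realisers. -/
def Real : At → Tm → Prop
  | .tok u, t => J t u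
  | .arr _ f b, t => ∀ s, (∀ i, Real (f i) s) → Real b (.app t s)

theorem real_exp (a : At) : ∀ {t t' : Tm}, Rs t t' → Real a t' → Real a t := by
  induction a with
  | tok u => rintro t t' h ⟨w, h1, h2⟩; exact ⟨w, h.trans h1, h2⟩
  | arr ι f b _ ih => intro t t' h g s hs; exact ih (rs_app h .refl) (g s hs)

/-- The range of a family. -/
def rg {ι : Type} (f : ι → At) (a : At) : Prop := ∃ i, f i = a

/-- Closure under expansion of tokens. -/
def cl (X : At → Prop) : At → Prop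
  | .tok w => ∃ u, X (.tok u) ∧ Rs w u
  | .arr ι f b => X (.arr ι f b)

theorem le_cl {X : At → Prop} {a : At} (h : X a) : cl X a := by
  cases a with
  | tok u => exact ⟨u, h, .refl⟩
  | arr ι f b => exact h

theorem cl_le {X Y : At → Prop} (h : ∀ a, X a → cl Y a) {a : At} (g : cl X a) : cl Y a := by
  cases a with
  | tok w =>
    obtain ⟨u, h1, h2⟩ := g
    obtain ⟨v, h3, h4⟩ := h _ h1
    exact ⟨v, h3, h2.trans h4⟩
  | arr ι f b => exact h _ g

theorem cl_real {X : At → Prop} {t : Tm} (h : ∀ a, X a → Real a t) {a : At} (g : cl X a) :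
    Real a t := by
  cases a with
  | tok w =>
    obtain ⟨u, h1, h2⟩ := g
    obtain ⟨v, h3, h4⟩ := h _ h1
    exact ⟨v, h3, h2.trans h4⟩
  | arr ι f b => exact h _ g

/-- A good set contains a token and has a common realiser. -/
def Good (X : At → Prop) : Prop := (∃ u, X (.tok u)) ∧ ∃ s, ∀ a, X a → Real a s

/-- The three ways to type the conditional. -/
def Cond (P M N : At → Prop) (d : At) : Prop :=
  (P (.tok .T) ∧ M d) ∨ (P (.tok .F) ∧ N d) ∨
    (M d ∧ N d ∧ ∃ v v', M (.tok v) ∧ N (.tok v') ∧ Cv v v')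

/-- The value of the constant `C`. -/
def cS : At → Prop
  | .tok w => Rs w .C
  | .arr _ f (.arr _ g (.arr _ h d)) => Cond (rg f) (rg g) (rg h) d
  | _ => False

/-- Application. -/
def ap (X Y : At → Prop) (a : At) : Prop :=
  cl (fun d => ∃ (ι : Type) (f : ι → At), X (.arr ι f d) ∧ ∀ i, Y (f i)) a ∨
    ∃ w u v, a = .tok w ∧ Rs w (.app u v) ∧ X (.tok u) ∧ Y (.tok v)

/-- Abstraction. -/
def ab (Φ : (At → Prop) → At → Prop) : At → Prop
  | .tok w => ∃ u, Rs w (.lam u) ∧ ∀ v, Φ (· = .tok v) (.tok (sub (cons v .var) u))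
  | .arr _ f d => Good (rg f) ∧ Φ (rg f) d

/-- The value of a term. -/
def sem : Tm → (ℕ → At → Prop) → At → Prop
  | .var n, ρ => cl (ρ n)
  | .T, _ => cl (· = .tok .T)
  | .F, _ => cl (· = .tok .F)
  | .C, _ => cS
  | .app s t, ρ => ap (sem s ρ) (sem t ρ)
  | .lam s, ρ => ab fun X => sem s (cons X ρ)

theorem ap_mono {X X' Y Y' : At → Prop} (h : ∀ a, X a → X' a) (g : ∀ a, Y a → Y' a) {a : At}
    (e : ap X Y a) : ap X' Y' a := by
  rcases e with e | ⟨w, u, v, e1, e2, e3, e4⟩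
  · exact .inl (cl_le (fun d ⟨ι, f, h1, h2⟩ => le_cl ⟨ι, f, h _ h1, fun i => g _ (h2 i)⟩) e)
  · exact .inr ⟨w, u, v, e1, e2, h _ e3, g _ e4⟩

theorem sem_cl (s : Tm) (ρ : ℕ → At → Prop) {a : At} (h : cl (sem s ρ) a) : sem s ρ a := by
  cases a with
  | arr ι f b => exact h
  | tok w =>
    obtain ⟨u, h1, h2⟩ := h
    cases s with
    | var n => obtain ⟨v, h3, h4⟩ := h1; exact ⟨v, h3, h2.trans h4⟩
    | T => obtain ⟨v, h3, h4⟩ := h1; exact ⟨v, h3, h2.trans h4⟩
    | F => obtain ⟨v, h3, h4⟩ := h1; exact ⟨v, h3, h2.trans h4⟩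
    | C => exact h2.trans h1
    | app s t =>
      rcases h1 with ⟨v, h3, h4⟩ | ⟨w', p, q, e1, e2, e3⟩
      · exact .inl ⟨v, h3, h2.trans h4⟩
      · cases e1; exact .inr ⟨w, p, q, rfl, h2.trans e2, e3⟩
    | lam s => obtain ⟨v, h3, h4⟩ := h1; exact ⟨v, h2.trans h3, h4⟩

theorem sem_mono (s : Tm) : ∀ {ρ ρ' : ℕ → At → Prop}, (∀ n a, ρ n a → cl (ρ' n) a) →
    ∀ a, sem s ρ a → sem s ρ' a := by
  induction s with
  | var n => intro ρ ρ' h a g; exact cl_le (h n) g
  | T => intro ρ ρ' h a g; exact g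
  | F => intro ρ ρ' h a g; exact g
  | C => intro ρ ρ' h a g; exact g
  | app s t hs ht => intro ρ ρ' h a g; exact ap_mono (hs h) (ht h) g
  | lam s hs =>
    intro ρ ρ' h a g
    have key : ∀ X n a, cons X ρ n a → cl (cons X ρ' n) a := by
      intro X n a e
      cases n with
      | zero => exact le_cl e
      | succ n => exact h n a e
    cases a with
    | tok w => obtain ⟨u, h1, h2⟩ := g; exact ⟨u, h1, fun v => hs (key _) _ (h2 v)⟩
    | arr ι f d => exact ⟨g.1, hs (key _) _ g.2⟩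

theorem sem_ren (s : Tm) : ∀ (ξ : ℕ → ℕ) (ρ : ℕ → At → Prop),
    sem (ren ξ s) ρ = sem s fun n => ρ (ξ n) := by
  induction s with
  | var n => intros; rfl
  | T => intros; rfl
  | F => intros; rfl
  | C => intros; rfl
  | app s t hs ht => intro ξ ρ; simp only [ren, sem, hs, ht]
  | lam s hs =>
    intro ξ ρ; simp only [ren, sem, hs]; congr 1; funext X; congr 1; funext n; cases n <;> rfl

theorem sem_sub (s : Tm) : ∀ (σ : ℕ → Tm) (ρ : ℕ → At → Prop),
    sem (sub σ s) ρ = sem s fun n => sem (σ n) ρ := by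
  induction s with
  | var n => intro σ ρ; funext a; exact propext ⟨le_cl, sem_cl _ _⟩
  | T => intros; rfl
  | F => intros; rfl
  | C => intros; rfl
  | app s t hs ht => intro ξ ρ; simp only [sub, sem, hs, ht]
  | lam s hs =>
    intro σ ρ; simp only [sub, sem, hs]; congr 1; funext X a
    refine propext ⟨sem_mono s ?_ a, sem_mono s ?_ a⟩
    · intro n b e
      cases n with
      | zero => exact e
      | succ n => simp only [cons, sem_ren] at e; exact le_cl e
    · intro n b e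
      cases n with
      | zero => exact le_cl (le_cl e)
      | succ n => simp only [cons, sem_ren]; exact le_cl e

theorem cS_real (a : At) (h : cS a) : Real a .C := by
  match a, h with
  | .tok w, h => exact ⟨_, .refl, h⟩
  | .arr _ f (.arr _ g (.arr _ h d)), e =>
    intro p hp m hm n hn
    rcases e with ⟨⟨i, e1⟩, ⟨j, e2⟩⟩ | ⟨⟨i, e1⟩, ⟨j, e2⟩⟩ |
      ⟨⟨j, e2⟩, _, v, v', ⟨k, e3⟩, ⟨l, e4⟩, e5⟩
    · have h1 := hp i; rw [e1] at h1
      exact real_exp _ ((rs_app (rs_app (rs_app .refl (J_T h1)) .refl) .refl).tail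
        (step_red (.cT _ _))) (e2 ▸ hm j)
    · have h1 := hp i; rw [e1] at h1
      exact real_exp _ ((rs_app (rs_app (rs_app .refl (J_F h1)) .refl) .refl).tail
        (step_red (.cF _ _))) (e2 ▸ hn j)
    · have h1 := hm k; rw [e3] at h1
      have h2 := hn l; rw [e4] at h2
      have h3 : Cv m n := .trans _ _ _ (J.cv h1) (.trans _ _ _ e5 (.symm _ _ (J.cv h2)))
      exact real_exp _ (.single (step_red (.cond _ _ _ h3))) (e2 ▸ hm j)

theorem adequacy (s : Tm) : ∀ {ρ : ℕ → At → Prop} {σ : ℕ → Tm},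
    (∀ n a, ρ n a → Real a (σ n)) → ∀ a, sem s ρ a → Real a (sub σ s) := by
  induction s with
  | var n => intro ρ σ h a g; exact cl_real (h n) g
  | T => intro ρ σ h a g; exact cl_real (by rintro _ rfl; exact ⟨_, .refl, .refl⟩) g
  | F => intro ρ σ h a g; exact cl_real (by rintro _ rfl; exact ⟨_, .refl, .refl⟩) g
  | C => intro ρ σ h a g; exact cS_real a g
  | app s t hs ht =>
    intro ρ σ h a g
    rcases g with g | ⟨w, u, v, rfl, e2, e3, e4⟩
    · exact cl_real (fun d ⟨ι, f, h1, h2⟩ => hs h _ h1 _ fun i => ht h _ (h2 i)) g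
    · obtain ⟨p, h1, h2⟩ := hs h _ e3
      obtain ⟨q, h3, h4⟩ := ht h _ e4
      exact ⟨_, rs_app h1 h3, e2.trans (rs_app h2 h4)⟩
  | lam s hs =>
    intro ρ σ h a g
    have key : ∀ (X : At → Prop) (v : Tm), (∀ b, X b → Real b v) →
        ∀ n b, cons X ρ n b → Real b (cons v σ n) := by
      intro X v hv n b e
      cases n with
      | zero => exact hv b e
      | succ n => exact h n b e
    cases a with
    | tok w =>
      obtain ⟨u, h1, h2⟩ := g
      obtain ⟨z, hz⟩ := J_fresh (sub (up σ) s) u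
      have h3 := hs (key _ (.var z) (by rintro _ rfl; exact ⟨_, .refl, .refl⟩)) _ (h2 (.var z))
      rw [← sub_up σ] at h3
      obtain ⟨p, h4, h5⟩ := hz h3
      exact ⟨p, h4, h1.trans h5⟩
    | arr ι f d =>
      intro v hv
      have h3 := hs (key _ v (by rintro _ ⟨i, rfl⟩; exact hv i)) _ g.2
      rw [← sub_up σ] at h3
      exact real_exp _ (.single (step_red (.beta _ _))) h3

theorem tok_self (s : Tm) : ∀ {ρ : ℕ → At → Prop} {θ : ℕ → Tm},
    (∀ n, ρ n (.tok (θ n))) → sem s ρ (.tok (sub θ s)) := by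
  induction s with
  | var n => intro ρ θ h; exact le_cl (h n)
  | T => intro ρ θ h; exact le_cl rfl
  | F => intro ρ θ h; exact le_cl rfl
  | C => intro ρ θ h; exact .refl
  | app s t hs ht => intro ρ θ h; exact .inr ⟨_, _, _, rfl, .refl, hs h, ht h⟩
  | lam s hs =>
    intro ρ θ h
    refine ⟨_, .refl, fun v => ?_⟩
    rw [sub_up]
    refine hs fun n => ?_
    cases n with
    | zero => rfl
    | succ n => exact h n

theorem ap_small {X Y : At → Prop} {a : At} (h : ap X Y a) :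
    ∃ x, X x ∧ ∃ (κ : Type) (g : κ → At), (∀ k, Y (g k)) ∧ ap (· = x) (rg g) a := by
  rcases h with h | ⟨w, u, v, e1, e2, e3, e4⟩
  · cases a with
    | tok w =>
      obtain ⟨u, ⟨ι, f, h1, h2⟩, h3⟩ := h
      exact ⟨_, h1, ι, f, h2, .inl ⟨u, ⟨ι, f, rfl, fun i => ⟨i, rfl⟩⟩, h3⟩⟩
    | arr κ g d =>
      obtain ⟨ι, f, h1, h2⟩ := h
      exact ⟨_, h1, ι, f, h2, .inl ⟨ι, f, rfl, fun i => ⟨i, rfl⟩⟩⟩
  · exact ⟨_, e3, Unit, fun _ => .tok v, fun _ => e4, .inr ⟨w, u, v, e1, e2, rfl, (), rfl⟩⟩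

theorem continuity (s : Tm) : ∀ (ρ : ℕ → At → Prop) (a : At), sem s ρ a →
    ∃ (ι : ℕ → Type) (g : ∀ n, ι n → At), (∀ n i, ρ n (g n i)) ∧
      sem s (fun n => rg (g n)) a := by
  induction s with
  | var n =>
    intro ρ a h
    have : ∃ b, ρ n b ∧ cl (· = b) a := by
      cases a with
      | tok w => obtain ⟨u, h1, h2⟩ := h; exact ⟨_, h1, u, rfl, h2⟩
      | arr ι f d => exact ⟨_, h, rfl⟩
    obtain ⟨b, h1, h2⟩ := this
    refine ⟨fun m => PLift (m = n), fun _ _ => b, fun m i => i.down ▸ h1, ?_⟩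
    exact cl_le (by rintro _ rfl; exact le_cl ⟨⟨rfl⟩, rfl⟩) h2
  | T => intro ρ a h; exact ⟨fun _ => Empty, fun _ i => i.elim, fun _ i => i.elim, h⟩
  | F => intro ρ a h; exact ⟨fun _ => Empty, fun _ i => i.elim, fun _ i => i.elim, h⟩
  | C => intro ρ a h; exact ⟨fun _ => Empty, fun _ i => i.elim, fun _ i => i.elim, h⟩
  | app s t hs ht =>
    intro ρ a h
    obtain ⟨x, hx, κ, g, hg, e⟩ := ap_small h
    obtain ⟨ι, f, h1, h2⟩ := hs ρ x hx
    choose ι' f' h3 h4 using fun k => ht ρ _ (hg k)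
    refine ⟨fun n => ι n ⊕ Σ k, ι' k n,
      fun n => Sum.elim (f n) fun p => f' p.1 n p.2, ?_, ap_mono ?_ ?_ e⟩
    · rintro n (i | ⟨k, i⟩)
      · exact h1 n i
      · exact h3 k n i
    · rintro _ rfl
      exact sem_mono s (fun n b ⟨i, hi⟩ => le_cl ⟨.inl i, hi⟩) _ h2
    · rintro _ ⟨k, rfl⟩
      exact sem_mono t (fun n b ⟨i, hi⟩ => le_cl ⟨.inr ⟨k, i⟩, hi⟩) _ (h4 k)
  | lam s hs =>
    intro ρ a h
    cases a with
    | tok w =>
      obtain ⟨u, h1, h2⟩ := h
      choose ι f h3 h4 using fun v => hs _ _ (h2 v)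
      refine ⟨fun n => Σ v, ι v (n + 1), fun n p => f p.1 (n + 1) p.2,
        fun n p => h3 p.1 (n + 1) p.2, u, h1, fun v => sem_mono s ?_ _ (h4 v)⟩
      rintro n _ ⟨i, rfl⟩
      cases n with
      | zero => exact le_cl (h3 v 0 i)
      | succ n => exact le_cl ⟨⟨v, i⟩, rfl⟩
    | arr κ g d =>
      obtain ⟨ι, f, h3, h4⟩ := hs _ _ h.2
      refine ⟨fun n => ι (n + 1), fun n => f (n + 1), fun n => h3 (n + 1), h.1,
        sem_mono s ?_ _ h4⟩
      rintro n _ ⟨i, rfl⟩
      cases n with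
      | zero => exact le_cl (h3 0 i)
      | succ n => exact le_cl ⟨i, rfl⟩

end Pool.Agent.MP_18c441_lc.Lam

end

section

namespace Pool.Agent.MP_18c441_lc.Lam
open Relation

theorem c3_intro {P M N : At → Prop} {p m n : At → Prop} (hp : ∃ ι : Type, ∃ f : ι → At, p = rg f)
    (hm : ∃ ι : Type, ∃ f : ι → At, m = rg f) (hn : ∃ ι : Type, ∃ f : ι → At, n = rg f)
    (h1 : ∀ a, p a → P a) (h2 : ∀ a, m a → M a) (h3 : ∀ a, n a → N a) {d : At}
    (h : Cond p m n d) : ap (ap (ap cS P) M) N d := by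
  obtain ⟨ι, f, rfl⟩ := hp
  obtain ⟨κ, g, rfl⟩ := hm
  obtain ⟨μ, k, rfl⟩ := hn
  exact .inl (le_cl ⟨μ, k, .inl (le_cl ⟨κ, g, .inl (le_cl ⟨ι, f, h, fun i => h1 _ ⟨i, rfl⟩⟩),
    fun i => h2 _ ⟨i, rfl⟩⟩), fun i => h3 _ ⟨i, rfl⟩⟩)

theorem rg_two (a b : At) : ∃ ι : Type, ∃ f : ι → At, (fun x => x = a ∨ x = b) = rg f :=
  ⟨Bool, fun i => cond i a b, funext fun _ => propext
    ⟨by rintro (rfl | rfl); exacts [⟨true, rfl⟩, ⟨false, rfl⟩],
     by rintro ⟨_ | _, rfl⟩; exacts [.inr rfl, .inl rfl]⟩⟩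

theorem rg_none : ∃ ι : Type, ∃ f : ι → At, (fun _ => False) = rg f :=
  ⟨Empty, fun i => i.elim, funext fun _ => propext ⟨False.elim, fun ⟨i, _⟩ => i.elim⟩⟩

theorem cond_ap {P M N : At → Prop} {d : At} (h : Cond P M N d) : ap (ap (ap cS P) M) N d := by
  rcases h with ⟨h1, h2⟩ | ⟨h1, h2⟩ | ⟨h1, h2, v, v', h3, h4, h5⟩
  · exact c3_intro (rg_two (.tok .T) (.tok .T)) (rg_two d d) rg_none
      (by rintro _ (rfl | rfl) <;> exact h1) (by rintro _ (rfl | rfl) <;> exact h2)
      (fun _ => False.elim) (.inl ⟨.inl rfl, .inl rfl⟩)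
  · exact c3_intro (rg_two (.tok .F) (.tok .F)) rg_none (rg_two d d)
      (by rintro _ (rfl | rfl) <;> exact h1) (fun _ => False.elim)
      (by rintro _ (rfl | rfl) <;> exact h2) (.inr (.inl ⟨.inl rfl, .inl rfl⟩))
  · exact c3_intro rg_none (rg_two d (.tok v)) (rg_two d (.tok v'))
      (fun _ => False.elim) (by rintro _ (rfl | rfl); exacts [h1, h3])
      (by rintro _ (rfl | rfl); exacts [h2, h4])
      (.inr (.inr ⟨.inl rfl, .inl rfl, v, v', .inr rfl, .inr rfl, h5⟩))

theorem Cond.mono {P M N p m n : At → Prop} (h1 : ∀ a, p a → P a) (h2 : ∀ a, m a → M a)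
    (h3 : ∀ a, n a → N a) {d : At} (h : Cond p m n d) : Cond P M N d := by
  rcases h with ⟨a, b⟩ | ⟨a, b⟩ | ⟨a, b, v, v', c, e, f⟩
  · exact .inl ⟨h1 _ a, h2 _ b⟩
  · exact .inr (.inl ⟨h1 _ a, h3 _ b⟩)
  · exact .inr (.inr ⟨h2 _ a, h3 _ b, v, v', h2 _ c, h3 _ e, f⟩)

theorem c1_tok {P : At → Prop} {w : Tm} (h : ap cS P (.tok w)) :
    ∃ p, Rs w (.app .C p) ∧ P (.tok p) := by
  rcases h with ⟨u, ⟨ι, f, h, _⟩, _⟩ | ⟨_, u, v, e, h1, h2, h3⟩
  · exact h.elim
  · cases e; exact ⟨v, h1.trans (rs_app h2 .refl), h3⟩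

theorem c2_tok {P M : At → Prop} {w : Tm} (h : ap (ap cS P) M (.tok w)) :
    ∃ p m, Rs w (.app (.app .C p) m) ∧ P (.tok p) ∧ M (.tok m) := by
  rcases h with ⟨u, ⟨ι, f, h, _⟩, _⟩ | ⟨_, u, v, e, h1, h2, h3⟩
  · rcases h with ⟨κ, g, h, _⟩ | ⟨_, _, _, e, _⟩
    · exact h.elim
    · cases e
  · cases e
    obtain ⟨p, h4, h5⟩ := c1_tok h2
    exact ⟨p, v, h1.trans (rs_app h4 .refl), h5, h3⟩

theorem c3_elim {P M N : At → Prop} {a : At} (h : ap (ap (ap cS P) M) N a) :
    cl (Cond P M N) a ∨ ∃ w p m n, a = .tok w ∧ Rs w (.app (.app (.app .C p) m) n) ∧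
      P (.tok p) ∧ M (.tok m) ∧ N (.tok n) := by
  rcases h with h | ⟨w, u, v, e, h1, h2, h3⟩
  · refine .inl (cl_le ?_ h)
    rintro d ⟨μ, k, h, hk⟩
    rcases h with ⟨κ, g, h, hg⟩ | ⟨_, _, _, e, _⟩
    · rcases h with ⟨ι, f, h, hf⟩ | ⟨_, _, _, e, _⟩
      · exact le_cl (Cond.mono (by rintro _ ⟨i, rfl⟩; exact hf i)
          (by rintro _ ⟨i, rfl⟩; exact hg i) (by rintro _ ⟨i, rfl⟩; exact hk i) h)
      · cases e
    · cases e
  · obtain ⟨p, m, h4, h5, h6⟩ := c2_tok h2
    exact .inr ⟨w, p, m, v, e, h1.trans (rs_app h4 .refl), h5, h6, h3⟩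

theorem tok_T {ρ : ℕ → At → Prop} {p : Tm} (h : sem .T ρ (.tok p)) : Rs p .T := by
  obtain ⟨u, e, h⟩ := h; cases e; exact h

theorem tok_F {ρ : ℕ → At → Prop} {p : Tm} (h : sem .F ρ (.tok p)) : Rs p .F := by
  obtain ⟨u, e, h⟩ := h; cases e; exact h

theorem inv_step {E : Tm → Tm → Prop}
    (hE : ∀ x y, E x y → Cv x y ∧ ∀ ρ, (∀ n, Good (ρ n)) → sem x ρ = sem y ρ) {s t : Tm}
    (h : Step E s t) : ∀ ρ, (∀ n, Good (ρ n)) → sem s ρ = sem t ρ := by
  induction h with
  | beta s t =>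
    intro ρ hρ
    choose θ hθ using fun n => (hρ n).1
    choose σ hσ using fun n => (hρ n).2
    have e : sem (sub (cons t .var) s) ρ = sem s (cons (sem t ρ) ρ) := by
      rw [sem_sub]; funext a
      refine propext ⟨sem_mono s ?_ a, sem_mono s ?_ a⟩
      · intro n b h
        cases n with
        | zero => exact le_cl h
        | succ n => exact h
      · intro n b h
        cases n with
        | zero => exact le_cl h
        | succ n => exact le_cl (le_cl h)
    have mono : ∀ X : At → Prop, (∀ b, X b → sem t ρ b) →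
        ∀ a, sem s (cons X ρ) a → sem s (cons (sem t ρ) ρ) a := by
      intro X hX
      refine sem_mono s fun n b h => ?_
      cases n with
      | zero => exact le_cl (hX b h)
      | succ n => exact le_cl h
    rw [e]; funext a
    refine propext ⟨?_, fun h => ?_⟩
    · rintro (h | ⟨w, u, v, rfl, h1, ⟨u', h2, h3⟩, h4⟩)
      · refine sem_cl _ _ (cl_le ?_ h)
        rintro d ⟨ι, f, h1, h2⟩
        exact le_cl (mono _ (by rintro _ ⟨i, rfl⟩; exact h2 i) _ h1.2)
      · exact sem_cl _ _ ⟨_, mono _ (by rintro _ rfl; exact h4) _ (h3 v),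
          (h1.trans (rs_app h2 .refl)).tail (step_red (.beta _ _))⟩
    · obtain ⟨ι, g, h1, h2⟩ := continuity s _ _ h
      let f : Option (ι 0) → At := fun o => o.elim (.tok (sub θ t)) (g 0)
      have hf : ∀ o, sem t ρ (f o) := by
        rintro (_ | i)
        · exact tok_self t hθ
        · exact h1 0 i
      refine .inl (le_cl ⟨_, f, ⟨⟨⟨_, none, rfl⟩, sub σ t, ?_⟩, sem_mono s ?_ _ h2⟩, hf⟩)
      · rintro _ ⟨o, rfl⟩; exact adequacy t hσ _ (hf o)
      · rintro n _ ⟨i, rfl⟩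
        cases n with
        | zero => exact le_cl ⟨some i, rfl⟩
        | succ n => exact le_cl (h1 (n + 1) i)
  | cT x y =>
    intro ρ _; funext a
    refine propext ⟨fun h => ?_, fun h => cond_ap (.inl ⟨le_cl rfl, h⟩)⟩
    rcases c3_elim h with h | ⟨w, p, m, n, rfl, h1, h2, h3, _⟩
    · refine sem_cl _ _ (cl_le ?_ h)
      rintro d (⟨_, h⟩ | ⟨h, _⟩ | ⟨h, _⟩)
      · exact le_cl h
      · exact (not_rs_FT (tok_T h)).elim
      · exact le_cl h
    · exact sem_cl _ _ ⟨m, h3, (h1.trans (rs_app (rs_app (rs_app .refl (tok_T h2)) .refl)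
        .refl)).tail (step_red (.cT _ _))⟩
  | cF x y =>
    intro ρ _; funext a
    refine propext ⟨fun h => ?_, fun h => cond_ap (.inr (.inl ⟨le_cl rfl, h⟩))⟩
    rcases c3_elim h with h | ⟨w, p, m, n, rfl, h1, h2, _, h3⟩
    · refine sem_cl _ _ (cl_le ?_ h)
      rintro d (⟨h, _⟩ | ⟨_, h⟩ | ⟨_, h, _⟩)
      · exact (not_rs_TF (tok_F h)).elim
      · exact le_cl h
      · exact le_cl h
    · exact sem_cl _ _ ⟨n, h3, (h1.trans (rs_app (rs_app (rs_app .refl (tok_F h2)) .refl)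
        .refl)).tail (step_red (.cF _ _))⟩
  | cond z x y hxy =>
    intro ρ hρ; funext a
    obtain ⟨hc, he⟩ := hE x y hxy
    have e := he ρ hρ
    choose θ hθ using fun n => (hρ n).1
    choose σ hσ using fun n => (hρ n).2
    refine propext ⟨fun h => ?_, fun h => cond_ap (.inr (.inr ⟨h, e ▸ h, _, _, tok_self x hθ,
      tok_self y hθ, eqv_map (sub θ) (red_subst θ) hc⟩))⟩
    rcases c3_elim h with h | ⟨w, p, m, n, rfl, h1, _, h3, h4⟩
    · refine sem_cl _ _ (cl_le ?_ h)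
      rintro d (⟨_, h⟩ | ⟨_, h⟩ | ⟨h, _⟩)
      · exact le_cl h
      · exact le_cl (e ▸ h)
      · exact le_cl h
    · have h5 : Cv m n := .trans _ _ _ (.symm _ _ (J.cv (adequacy x hσ _ h3)))
        (J.cv (adequacy x hσ (.tok n) (e ▸ h4)))
      exact sem_cl _ _ ⟨m, h3, h1.tail (step_red (.cond _ _ _ h5))⟩
  | appL s s' t _ ih => intro ρ hρ; simp only [sem, ih ρ hρ]
  | appR s t t' _ ih => intro ρ hρ; simp only [sem, ih ρ hρ]
  | lam s s' _ ih =>
    intro ρ hρ; funext a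
    have key : ∀ X, Good X → sem s (cons X ρ) = sem s' (cons X ρ) := by
      intro X hX
      refine ih _ fun n => ?_
      cases n with
      | zero => exact hX
      | succ n => exact hρ n
    have g : ∀ v, Good (· = .tok v) := fun v =>
      ⟨⟨v, rfl⟩, v, by rintro _ rfl; exact ⟨_, .refl, .refl⟩⟩
    cases a with
    | tok w => simp only [sem, ab, key _ (g _)]
    | arr ι f d =>
      exact propext (and_congr_right fun hX => by simp only [key _ hX])

theorem inv_level : ∀ (k : ℕ) (s t : Tm), level k s t →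
    ∀ ρ, (∀ n, Good (ρ n)) → sem s ρ = sem t ρ
  | 0, _, _, h => h.elim
  | k + 1, _, _, h => by
    refine inv_step (fun x y hxy => ⟨eqv_map id (fun _ _ g => ⟨k, g⟩) hxy, fun ρ hρ => ?_⟩) h
    induction hxy with
    | rel x y g => exact inv_level k x y g ρ hρ
    | refl x => rfl
    | symm x y _ ih => exact ih.symm
    | trans x y z _ _ i1 i2 => exact i1.trans i2

theorem church_rosser {s t : Tm} (h : Cv s t) : J s t := by
  let ρ : ℕ → At → Prop := fun n a => a = .tok (.var n)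
  have hρ : ∀ n a, ρ n a → Real a (.var n) := by rintro n _ rfl; exact ⟨_, .refl, .refl⟩
  have e : sem s ρ = sem t ρ := by
    induction h with
    | rel x y g =>
      obtain ⟨k, g⟩ := g
      exact inv_level k x y g ρ fun n => ⟨⟨_, rfl⟩, _, hρ n⟩
    | refl x => rfl
    | symm x y _ ih => exact ih.symm
    | trans x y z _ _ i1 i2 => exact i1.trans i2
  have h1 : sem t ρ (.tok (sub .var t)) := tok_self t fun _ => rfl
  have h2 := adequacy s hρ _ (e ▸ h1)
  rwa [sub_var, sub_var] at h2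

end Pool.Agent.MP_18c441_lc.Lam

end
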